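import Mathlib
import Pool.Agent.N988.ES.Main

/-!
# Spectral sample versus pivotal set in critical percolation on hierarchical lattices

Authors: helper988 (statements, proofs on paper, assembly) and, for the parts in Lean, the helpers
137, 252, 283, 285, 349, 362, 371, 390, 391, 409, 494, 527, 530, 564, 823, 942 and 952.
-/

open MeasureTheory Filter
open scoped Topology
open Pool.Agent.N988.EA Pool.Agent.N988.EC Pool.Agent.N988.EP Pool.Agent.N988.ES

namespace Pool.Agent.Results.MP_7800de_pr.HierarchicalSpectralSample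

open Classical in
/-- Critical percolation on the hierarchical (diamond, Migdal-Kadanoff) lattices `H n` with `b ≥ 2`
branches; `cross = ± 1` says whether the two ends are joined by open edges. In the scaling limit the
laws of the spectral sample and of the pivotal set of `cross`, restricted to the nonempty sets, are
mutually singular: the pivotal set has never a fork, while the nonempty spectral sample has no
fork in the `m` largest scales with a probability of at most `r ^ m`, `r < 1`, for every level
`n + m`. -/
theorem result (b : ℕ) (hb : 2 ≤ b) : ∃ pc : ℝ, 0 < pc ∧ pc < 1 ∧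
    (∀ p : ℝ, 0 ≤ p → p < pc →
      Tendsto (fun n : ℕ => (iid (coin (1 - p)) b n).real {w | across w = 0}) atTop (𝓝 0)) ∧
    (∀ p : ℝ, pc < p → p ≤ 1 →
      Tendsto (fun n : ℕ => (iid (coin (1 - p)) b n).real {w | across w = 0}) atTop (𝓝 1)) ∧
    (∃ c : ℝ, 0 < c ∧ ∀ n : ℕ, c ≤ (iid (coin (1 - pc)) b n).real {w | (piv w).Nonempty}) ∧
    (∀ (n m : ℕ) (w : Edge b (n + m) → Bool), ¬ Fork m (piv w)) ∧
    (∀ n : ℕ, ∑ S : Finset (Edge b n), spec pc S = 1 ∧
      spec pc (∅ : Finset (Edge b n)) = (2 * pc - 1) ^ 2) ∧
    ∃ r : ℝ, 0 ≤ r ∧ r < 1 ∧ ∀ n m : ℕ,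
      ∑ S : Finset (Edge b (n + m)), (if S.Nonempty ∧ ¬ Fork m (S : Set (Edge b (n + m))) then
        spec pc S else 0) ≤ r ^ m :=
  k_SP b hb

end Pool.Agent.Results.MP_7800de_pr.HierarchicalSpectralSample
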